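import Mathlib

/-!
String rewriting systems, the monoid they present, and conjugacy relations in monoids.
-/

namespace Pool.Agent.ConjMonadic

open Relation

variable {α : Type*}

/-- One rewriting step of the system `R`: replace a factor `x` by `y`, where `(x, y) ∈ R`. -/
def Step (R : Set (List α × List α)) (w w' : List α) : Prop :=
  ∃ u v x y : List α, (x, y) ∈ R ∧ w = u ++ x ++ v ∧ w' = u ++ y ++ v

/-- The reflexive-transitive closure of `Step R`. -/
def Steps (R : Set (List α × List α)) : List α → List α → Prop := ReflTransGen (Step R)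

/-- `R` is monadic: every right-hand side is empty or a single letter and is shorter than the
corresponding left-hand side. -/
def Monadic (R : Set (List α × List α)) : Prop :=
  ∀ p ∈ R, p.2.length ≤ 1 ∧ p.2.length < p.1.length

/-- `R` is confluent. -/
def Confluent (R : Set (List α × List α)) : Prop :=
  ∀ u v w : List α, Steps R u v → Steps R u w → ∃ z, Steps R v z ∧ Steps R w z

/-- The smallest congruence on the free monoid containing `R`. -/
def cong (R : Set (List α × List α)) : Con (FreeMonoid α) :=
  conGen fun a b => (FreeMonoid.toList a, FreeMonoid.toList b) ∈ R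

/-- The monoid `M(α; R)` presented by `R`. -/
abbrev Mon (R : Set (List α × List α)) : Type _ := (cong R).Quotient

/-- The element `[w]` of `M(α; R)` represented by the word `w`. -/
def cls (R : Set (List α × List α)) (w : List α) : Mon R :=
  ((FreeMonoid.ofList w : FreeMonoid α) : (cong R).Quotient)

/-- `p`-conjugacy in a monoid: `a = u * v` and `b = v * u` for some `u, v`. -/
def PConj {M : Type*} [Monoid M] (a b : M) : Prop := ∃ u v : M, a = u * v ∧ b = v * u

section
variable {R : Set (List α × List α)}

theorem Step.append_left {w w' : List α} (h : Step R w w') (p : List α) :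
    Step R (p ++ w) (p ++ w') := by
  obtain ⟨u, v, x, y, hR, rfl, rfl⟩ := h
  exact ⟨p ++ u, v, x, y, hR, by simp, by simp⟩

theorem Step.append_right {w w' : List α} (h : Step R w w') (p : List α) :
    Step R (w ++ p) (w' ++ p) := by
  obtain ⟨u, v, x, y, hR, rfl, rfl⟩ := h
  exact ⟨u, v ++ p, x, y, hR, by simp, by simp⟩

theorem Steps.refl (w : List α) : Steps R w w := ReflTransGen.refl

theorem Steps.trans {a b c : List α} (h₁ : Steps R a b) (h₂ : Steps R b c) : Steps R a c :=
  ReflTransGen.trans h₁ h₂

theorem Steps.single {a b : List α} (h : Step R a b) : Steps R a b := ReflTransGen.single h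

theorem Steps.append_left {w w' : List α} (h : Steps R w w') (p : List α) :
    Steps R (p ++ w) (p ++ w') := by
  induction h with
  | refl => exact Steps.refl _
  | tail _ h ih => exact ih.trans (Steps.single (h.append_left p))

theorem Steps.append_right {w w' : List α} (h : Steps R w w') (p : List α) :
    Steps R (w ++ p) (w' ++ p) := by
  induction h with
  | refl => exact Steps.refl _
  | tail _ h ih => exact ih.trans (Steps.single (h.append_right p))

theorem Steps.append {a a' b b' : List α} (h₁ : Steps R a a') (h₂ : Steps R b b') :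
    Steps R (a ++ b) (a' ++ b') := (h₁.append_right b).trans (h₂.append_left a')

theorem cls_append (u v : List α) : cls R (u ++ v) = cls R u * cls R v := rfl

theorem cls_nil : cls R [] = 1 := rfl

theorem cls_surj (m : Mon R) : ∃ w, cls R w = m := by
  obtain ⟨a, rfl⟩ := (cong R).mk'_surjective m
  exact ⟨FreeMonoid.toList a, rfl⟩

theorem Step.cls_eq {u v : List α} (h : Step R u v) : cls R u = cls R v := by
  obtain ⟨p, q, x, y, hR, rfl, rfl⟩ := h
  have hxy : cls R x = cls R y := by
    have : cong R (FreeMonoid.ofList x) (FreeMonoid.ofList y) :=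
      ConGen.Rel.of _ _ (by simpa using hR)
    exact (Con.eq (cong R)).2 this
  simp only [cls_append, hxy]

theorem Steps.cls_eq {u v : List α} (h : Steps R u v) : cls R u = cls R v := by
  induction h with
  | refl => rfl
  | tail _ h ih => exact ih.trans h.cls_eq

/-- Equality in the presented monoid is the equivalence generated by rewriting steps. -/
theorem eqvGen_of_cls_eq {u v : List α} (h : cls R u = cls R v) : EqvGen (Step R) u v := by
  let c : Con (FreeMonoid α) :=
    { r := fun a b => EqvGen (Step R) (FreeMonoid.toList a) (FreeMonoid.toList b)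
      iseqv := ⟨fun a => EqvGen.refl _, fun h => EqvGen.symm _ _ h,
        fun h₁ h₂ => EqvGen.trans _ _ _ h₁ h₂⟩
      mul' := by
        intro a b c d hab hcd
        have key₁ : ∀ {x y : List α} (p : List α), EqvGen (Step R) x y →
            EqvGen (Step R) (x ++ p) (y ++ p) := by
          intro x y p h
          induction h with
          | rel x y h => exact EqvGen.rel _ _ (h.append_right p)
          | refl x => exact EqvGen.refl _
          | symm x y _ ih => exact EqvGen.symm _ _ ih
          | trans x y z _ _ ih₁ ih₂ => exact EqvGen.trans _ _ _ ih₁ ih₂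
        have key₂ : ∀ {x y : List α} (p : List α), EqvGen (Step R) x y →
            EqvGen (Step R) (p ++ x) (p ++ y) := by
          intro x y p h
          induction h with
          | rel x y h => exact EqvGen.rel _ _ (h.append_left p)
          | refl x => exact EqvGen.refl _
          | symm x y _ ih => exact EqvGen.symm _ _ ih
          | trans x y z _ _ ih₁ ih₂ => exact EqvGen.trans _ _ _ ih₁ ih₂
        have := EqvGen.trans _ _ _ (key₁ (FreeMonoid.toList c) hab)
          (key₂ (FreeMonoid.toList b) hcd)
        simpa using this }
  have hle : cong R ≤ c := by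
    refine Con.conGen_le.2 ?_
    intro a b hab
    exact EqvGen.rel _ _ ⟨[], [], FreeMonoid.toList a, FreeMonoid.toList b, hab, by simp, by simp⟩
  have h' : cong R (FreeMonoid.ofList u) (FreeMonoid.ofList v) := (Con.eq (cong R)).1 h
  exact hle h'

theorem joinable_of_eqvGen (hc : Confluent R) {u v : List α} (h : EqvGen (Step R) u v) :
    ∃ z, Steps R u z ∧ Steps R v z := by
  induction h with
  | rel x y h => exact ⟨y, Steps.single h, Steps.refl _⟩
  | refl x => exact ⟨x, Steps.refl _, Steps.refl _⟩
  | symm x y hxy ih =>
    obtain ⟨z, h₁, h₂⟩ := ih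
    exact ⟨z, h₂, h₁⟩
  | trans x y z hxy hyz ih₁ ih₂ =>
    obtain ⟨a, ha₁, ha₂⟩ := ih₁
    obtain ⟨b, hb₁, hb₂⟩ := ih₂
    obtain ⟨c, hc₁, hc₂⟩ := hc y a b ha₂ hb₁
    exact ⟨c, ha₁.trans hc₁, hb₂.trans hc₂⟩

/-- Church-Rosser property of a confluent system. -/
theorem joinable_of_cls_eq (hc : Confluent R) {u v : List α} (h : cls R u = cls R v) :
    ∃ z, Steps R u z ∧ Steps R v z := joinable_of_eqvGen hc (eqvGen_of_cls_eq h)

/-- A word to which no rule applies. -/
def Irred (R : Set (List α × List α)) (w : List α) : Prop := ∀ w', ¬ Step R w w'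

theorem Irred.eq_of_steps {w w' : List α} (hw : Irred R w) (h : Steps R w w') : w' = w := by
  rcases ReflTransGen.cases_head h with h | ⟨c, hc, _⟩
  · exact h.symm
  · exact absurd hc (hw c)

theorem steps_of_cls_eq (hc : Confluent R) {u v : List α} (hv : Irred R v)
    (h : cls R u = cls R v) : Steps R u v := by
  obtain ⟨z, h₁, h₂⟩ := joinable_of_cls_eq hc h
  rw [hv.eq_of_steps h₂] at h₁
  exact h₁

end

end Pool.Agent.ConjMonadic
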