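import Pool.Agent.ConjMonadic.Pairs

/-!
A pair of two-tape automata `P` and `G` turned into a confluent system of rules `ab → c`,
such that `p`-conjugacy of two explicit words expresses that `P` and `G` accept a common
pair of tapes.
-/

namespace Pool.Agent.ConjMonadic

open Relation

/-- The letters of the rewriting system built from a device. -/
inductive Letter (X Y KP KG : Type*) where
  | zero : Letter X Y KP KG
  | P (k : KP) : Letter X Y KP KG
  | G (l : KG) : Letter X Y KP KG
  | x (a : X) : Letter X Y KP KG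
  | y (b : Y) : Letter X Y KP KG
  deriving DecidableEq

/-- Two automata on two tapes with alphabets `X` and `Y`. -/
structure Device (X Y KP KG : Type*) where
  px : X → KP → Option KP
  py : KP → Y → Option KP
  gy : Y → KG → Option KG
  gx : KG → X → Option KG
  pi : KP
  pf : KP
  gi : KG
  gf : KG
  p_excl : ∀ a k b k₁ k₂, px a k = some k₁ → py k b = some k₂ → False
  g_excl : ∀ a l b l₁ l₂, gx l a = some l₁ → gy b l = some l₂ → False
  py_init : ∀ b, py pi b = none
  gy_init : ∀ b, gy b gi = none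
  px_fin : ∀ a k, px a k ≠ some pf
  px_init : ∀ a k, px a k ≠ some pi
  py_init' : ∀ k b, py k b ≠ some pi
  gx_init : ∀ l a, gx l a ≠ some gi
  gy_init' : ∀ b l, gy b l ≠ some gi
  gy_fin : ∀ b, gy b gf = none

namespace Device

variable {X Y KP KG : Type*} [DecidableEq KP] [DecidableEq KG] (D : Device X Y KP KG)

/-- The partial multiplication on letters. -/
def mul : Letter X Y KP KG → Letter X Y KP KG → Option (Letter X Y KP KG)
  | .zero, _ => some .zero
  | .P _, .zero => some .zero
  | .P _, .P _ => none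
  | .P k, .G l => if k = D.pi ∨ (k = D.pf ∧ l = D.gi) then none else some .zero
  | .P _, .x _ => none
  | .P k, .y b => (D.py k b).map .P
  | .G _, .zero => some .zero
  | .G _, .P _ => some .zero
  | .G _, .G _ => none
  | .G l, .x a => (D.gx l a).map .G
  | .G _, .y _ => none
  | .x _, .zero => some .zero
  | .x a, .P k => (D.px a k).map .P
  | .x _, .G _ => none
  | .x _, .x _ => none
  | .x _, .y _ => none
  | .y _, .zero => some .zero
  | .y _, .P _ => none
  | .y b, .G l => (D.gy b l).map .G
  | .y _, .x _ => none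
  | .y _, .y _ => none

theorem mul_zero (a : Letter X Y KP KG) : D.mul a .zero = some .zero := by
  cases a <;> rfl

theorem zero_mul (a : Letter X Y KP KG) : D.mul .zero a = some .zero := rfl

theorem mul_P_G {k : KP} {l : KG} (h : ¬(k = D.pi ∨ (k = D.pf ∧ l = D.gi))) :
    D.mul (.P k) (.G l) = some .zero := if_neg h

theorem mul_G_P (k : KP) (l : KG) : D.mul (.G l) (.P k) = some .zero := rfl

theorem mul_assoc : PairAssoc D.mul := by
  intro a b c d e h₁ h₂
  rcases a with _ | k | l | a | b1 <;> rcases b with _ | k' | l' | a' | b2 <;>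
    simp only [mul, Option.some.injEq, Option.map_eq_some_iff, reduceCtorEq,
      Option.ite_none_left_eq_some] at h₁ <;>
    rcases c with _ | k'' | l'' | a'' | b3 <;>
    simp only [mul, Option.some.injEq, Option.map_eq_some_iff, reduceCtorEq,
      Option.ite_none_left_eq_some] at h₂ <;>
    (first | subst h₁ | obtain ⟨hk₁, rfl⟩ := h₁ | obtain ⟨k₁, hk₁, rfl⟩ := h₁) <;>
    (first | subst h₂ | obtain ⟨hk₂, rfl⟩ := h₂ | obtain ⟨k₂, hk₂, rfl⟩ := h₂) <;>
    (first
      | exact ⟨.zero, D.mul_zero _, D.mul_zero _⟩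
      | exact ⟨.zero, D.mul_zero _, rfl⟩
      | exact ⟨.zero, rfl, D.mul_zero _⟩
      | exact ⟨.zero, rfl, rfl⟩
      | skip)
  · -- P G x
    refine ⟨.zero, rfl, D.mul_P_G ?_⟩
    rintro (h | ⟨h, h'⟩)
    · exact hk₁ (Or.inl h)
    · exact D.gx_init _ _ (h' ▸ hk₂)
  · -- P y G
    refine ⟨.zero, D.mul_P_G ?_, D.mul_P_G ?_⟩
    · rintro (h | ⟨h, h'⟩)
      · exact D.py_init' _ _ (h ▸ hk₁)
      · rw [h', D.gy_init] at hk₂
        cases hk₂
    · rintro (h | ⟨h, h'⟩)
      · rw [h, D.py_init] at hk₁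
        cases hk₁
      · exact D.gy_init' _ _ (h' ▸ hk₂)
  · -- x P G
    refine ⟨.zero, D.mul_P_G ?_, D.mul_zero _⟩
    rintro (h | ⟨h, h'⟩)
    · exact D.px_init _ _ (h ▸ hk₁)
    · exact D.px_fin _ _ (h ▸ hk₁)
  · -- x P y
    exact (D.p_excl _ _ _ _ _ hk₁ hk₂).elim
  · -- y G x
    exact (D.g_excl _ _ _ _ _ hk₂ hk₁).elim

end Device

end Pool.Agent.ConjMonadic
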