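import Pool.Agent.ConjMonadic.Device

/-!
`p`-conjugacy of the two test words of a device.
-/

namespace Pool.Agent.ConjMonadic

open Relation

namespace Device

variable {X Y KP KG : Type*} [DecidableEq KP] [DecidableEq KG] (D : Device X Y KP KG)

/-- Accepting runs of the automaton `P`, reading both tapes from left to right. -/
inductive RunP : KP → List X → List Y → Prop
  | fin : RunP D.pf [] []
  | left {a k k' t z} : D.px a k = some k' → RunP k' t z → RunP k (a :: t) z
  | right {b k k' t z} : D.py k b = some k' → RunP k' t z → RunP k t (b :: z)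

/-- Accepting runs of the automaton `G`, reading both tapes from left to right. -/
inductive RunG : KG → List X → List Y → Prop
  | fin : RunG D.gf [] []
  | right {a l l' t z} : D.gx l a = some l' → RunG l' t z → RunG l (a :: t) z
  | left {b l l' t z} : D.gy b l = some l' → RunG l' t z → RunG l t (b :: z)

/-- The rewriting system of a device. -/
def sys : Set (List (Letter X Y KP KG) × List (Letter X Y KP KG)) := pairSys D.mul

theorem sys_confluent : Confluent D.sys := pair_confluent D.mul_assoc

theorem mul_cases {a b c : Letter X Y KP KG} (h : D.mul a b = some c) :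
    c = .zero ∨ (∃ k k' a', a = .x a' ∧ b = .P k ∧ c = .P k' ∧ D.px a' k = some k') ∨
    (∃ k k' b', a = .P k ∧ b = .y b' ∧ c = .P k' ∧ D.py k b' = some k') ∨
    (∃ l l' a', a = .G l ∧ b = .x a' ∧ c = .G l' ∧ D.gx l a' = some l') ∨
    (∃ l l' b', a = .y b' ∧ b = .G l ∧ c = .G l' ∧ D.gy b' l = some l') := by
  rcases a with _ | k | l | a | b1 <;> rcases b with _ | k' | l' | a' | b2 <;>
    simp only [mul, Option.some.injEq, Option.map_eq_some_iff, reduceCtorEq,
      Option.ite_none_left_eq_some] at h
  all_goals first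
    | exact Or.inl h.symm
    | exact Or.inl h.2.symm
    | (obtain ⟨k₁, hk, rfl⟩ := h
       first
        | exact Or.inr (Or.inl ⟨_, _, _, rfl, rfl, rfl, hk⟩)
        | exact Or.inr (Or.inr (Or.inl ⟨_, _, _, rfl, rfl, rfl, hk⟩))
        | exact Or.inr (Or.inr (Or.inr (Or.inl ⟨_, _, _, rfl, rfl, rfl, hk⟩)))
        | exact Or.inr (Or.inr (Or.inr (Or.inr ⟨_, _, _, rfl, rfl, rfl, hk⟩))))

theorem runP_steps {k : KP} {t : List X} {z : List Y} (h : D.RunP k t z)
    (B : List (Letter X Y KP KG)) :
    Steps D.sys (t.reverse.map .x ++ .P k :: (z.map .y ++ B)) (.P D.pf :: B) := by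
  induction h with
  | fin => simpa using Steps.refl _
  | @left a k k' t z hk _ ih =>
    refine Steps.trans (Steps.single ?_) ih
    have hm : D.mul (.x a) (.P k) = some (.P k' : Letter X Y KP KG) := by simp [mul, hk]
    simpa [sys] using step_pair hm (t.reverse.map .x) (z.map .y ++ B)
  | @right b k k' t z hk _ ih =>
    refine Steps.trans (Steps.single ?_) ih
    have hm : D.mul (.P k) (.y b) = some (.P k' : Letter X Y KP KG) := by simp [mul, hk]
    simpa [sys] using step_pair hm (t.reverse.map .x) (z.map .y ++ B)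

theorem runG_steps {l : KG} {t : List X} {z : List Y} (h : D.RunG l t z)
    (A : List (Letter X Y KP KG)) :
    Steps D.sys (A ++ z.reverse.map .y ++ .G l :: t.map .x) (A ++ [.G D.gf]) := by
  induction h with
  | fin => simpa using Steps.refl _
  | @right a l l' t z hl _ ih =>
    refine Steps.trans (Steps.single ?_) ih
    have hm : D.mul (.G l) (.x a) = some (.G l' : Letter X Y KP KG) := by simp [mul, hl]
    have := step_pair hm (A ++ z.reverse.map .y) (t.map .x)
    rw [List.append_assoc, List.append_assoc] at this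
    simpa [sys] using this
  | @left b l l' t z hl _ ih =>
    refine Steps.trans (Steps.single ?_) ih
    have hm : D.mul (.y b) (.G l) = some (.G l' : Letter X Y KP KG) := by simp [mul, hl]
    have := step_pair hm (A ++ z.reverse.map .y) (t.map .x)
    rw [List.append_assoc, List.append_assoc] at this
    simpa [sys] using this

/-- Locating a letter in a word. -/
theorem locate {L : Type*} {u v A B : List L} {c p : L} (h : u ++ c :: v = A ++ p :: B)
    (hA : c ∉ A) (hB : c ∉ B) : u = A ∧ c = p ∧ v = B := by
  rcases List.append_eq_append_iff.1 h with ⟨t, ht, h'⟩ | ⟨t, ht, h'⟩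
  · rcases t with _ | ⟨q, t⟩
    · simp only [List.nil_append, List.cons.injEq, List.append_nil] at h' ht
      exact ⟨ht.symm, h'.1, h'.2⟩
    · simp only [List.cons_append, List.cons.injEq] at h'
      exact absurd (by rw [ht, h'.1]; simp) hA
  · rcases t with _ | ⟨q, t⟩
    · simp only [List.nil_append, List.cons.injEq, List.append_nil] at h' ht
      exact ⟨ht, h'.1.symm, h'.2.symm⟩
    · simp only [List.cons_append, List.cons.injEq] at h'
      exact absurd (by rw [h'.2]; simp) hB

theorem steps_to_P {w : List (Letter X Y KP KG)}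
    (h : Steps D.sys w [.P D.pf, .G D.gi]) :
    ∃ t k z, w = t.reverse.map .x ++ .P k :: (z.map .y ++ [.G D.gi]) ∧ D.RunP k t z := by
  induction h using ReflTransGen.head_induction_on with
  | refl => exact ⟨[], D.pf, [], by simp, RunP.fin⟩
  | head h _ ih =>
    obtain ⟨t, k, z, hw, hrun⟩ := ih
    obtain ⟨u, v, a, b, c, hm, rfl, rfl⟩ := step_pairSys_iff.1 h
    rcases D.mul_cases hm with rfl | ⟨k₁, k₂, a', rfl, rfl, rfl, hk⟩ |
      ⟨k₁, k₂, b', rfl, rfl, rfl, hk⟩ | ⟨l₁, l₂, a', rfl, rfl, rfl, hl⟩ |
      ⟨l₁, l₂, b', rfl, rfl, rfl, hl⟩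
    · obtain ⟨_, h', _⟩ := locate hw (by simp) (by simp)
      cases h'
    · obtain ⟨rfl, h', rfl⟩ := locate hw (by simp) (by simp)
      cases h'
      exact ⟨a' :: t, k₁, z, by simp, RunP.left hk hrun⟩
    · obtain ⟨rfl, h', rfl⟩ := locate hw (by simp) (by simp)
      cases h'
      exact ⟨t, k₁, b' :: z, by simp, RunP.right hk hrun⟩
    · obtain ⟨_, h', _⟩ := locate hw (by simp) (by
        simp only [List.mem_append, List.mem_map, reduceCtorEq, and_false, exists_false,
          List.mem_cons, Letter.G.injEq, List.not_mem_nil, or_false, false_or]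
        exact fun h => D.gx_init _ _ (h ▸ hl))
      cases h'
    · obtain ⟨_, h', _⟩ := locate hw (by simp) (by
        simp only [List.mem_append, List.mem_map, reduceCtorEq, and_false, exists_false,
          List.mem_cons, Letter.G.injEq, List.not_mem_nil, or_false, false_or]
        exact fun h => D.gy_init' _ _ (h ▸ hl))
      cases h'

theorem steps_to_G {w : List (Letter X Y KP KG)} (s : List Y)
    (h : Steps D.sys w (.P D.pi :: (s.map .y ++ [.G D.gf]))) :
    ∃ t l z, w = .P D.pi :: (s.map .y ++ z.reverse.map .y) ++ .G l :: t.map .x ∧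
      D.RunG l t z := by
  induction h using ReflTransGen.head_induction_on with
  | refl => exact ⟨[], D.gf, [], by simp, RunG.fin⟩
  | head h _ ih =>
    obtain ⟨t, l, z, hw, hrun⟩ := ih
    obtain ⟨u, v, a, b, c, hm, rfl, rfl⟩ := step_pairSys_iff.1 h
    rcases D.mul_cases hm with rfl | ⟨k₁, k₂, a', rfl, rfl, rfl, hk⟩ |
      ⟨k₁, k₂, b', rfl, rfl, rfl, hk⟩ | ⟨l₁, l₂, a', rfl, rfl, rfl, hl⟩ |
      ⟨l₁, l₂, b', rfl, rfl, rfl, hl⟩
    · obtain ⟨_, h', _⟩ := locate hw (by simp) (by simp)
      cases h'
    · obtain ⟨_, h', _⟩ := locate hw (by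
        simp only [List.mem_append, List.mem_map, reduceCtorEq, and_false, exists_false,
          List.mem_cons, Letter.P.injEq, or_false]
        exact fun h => D.px_init _ _ (h ▸ hk)) (by simp)
      cases h'
    · obtain ⟨_, h', _⟩ := locate hw (by
        simp only [List.mem_append, List.mem_map, reduceCtorEq, and_false, exists_false,
          List.mem_cons, Letter.P.injEq, or_false]
        exact fun h => D.py_init' _ _ (h ▸ hk)) (by simp)
      cases h'
    · obtain ⟨rfl, h', rfl⟩ := locate hw (by simp) (by simp)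
      cases h'
      exact ⟨a' :: t, l₁, z, by simp, RunG.right hl hrun⟩
    · obtain ⟨rfl, h', rfl⟩ := locate hw (by simp) (by simp)
      cases h'
      exact ⟨t, l₁, b' :: z, by simp, RunG.left hl hrun⟩

theorem irred_P : Irred D.sys [.P D.pf, .G D.gi] := by
  intro w' h
  obtain ⟨u, v, a, b, c, hm, hw, rfl⟩ := step_pairSys_iff.1 h
  rcases u with _ | ⟨x, _ | ⟨y, u⟩⟩
  · simp only [List.nil_append, List.cons.injEq] at hw
    obtain ⟨rfl, rfl, rfl⟩ := hw
    simp [mul] at hm
  · simp at hw
  · simp at hw

theorem irred_ys (s : List Y) : Irred D.sys (s.map .y ++ [.G D.gf]) := by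
  intro w' h
  obtain ⟨u, v, a, b, c, hm, hw, rfl⟩ := step_pairSys_iff.1 h
  clear h
  induction s generalizing u with
  | nil =>
    rcases u with _ | ⟨x, u⟩
    · simp at hw
    · simp at hw
  | cons d s ih =>
    rcases u with _ | ⟨x, u⟩
    · simp only [List.map_cons, List.cons_append, List.nil_append, List.cons.injEq] at hw
      obtain ⟨rfl, hw⟩ := hw
      rcases s with _ | ⟨e, s⟩
      · simp only [List.map_nil, List.nil_append, List.cons.injEq] at hw
        obtain ⟨rfl, -⟩ := hw
        simp [mul, D.gy_fin] at hm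
      · simp only [List.map_cons, List.cons_append, List.cons.injEq] at hw
        obtain ⟨rfl, -⟩ := hw
        simp [mul] at hm
    · simp only [List.map_cons, List.cons_append, List.cons.injEq] at hw
      exact ih u hw.2

theorem irred_G (s : List Y) : Irred D.sys (.P D.pi :: (s.map .y ++ [.G D.gf])) := by
  intro w' h
  obtain ⟨u, v, a, b, c, hm, hw, rfl⟩ := step_pairSys_iff.1 h
  rcases u with _ | ⟨x, u⟩
  · simp only [List.nil_append, List.cons.injEq] at hw
    obtain ⟨rfl, hw⟩ := hw
    rcases s with _ | ⟨e, s⟩
    · simp only [List.map_nil, List.nil_append, List.cons.injEq] at hw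
      obtain ⟨rfl, -⟩ := hw
      simp [mul] at hm
    · simp only [List.map_cons, List.cons_append, List.cons.injEq] at hw
      obtain ⟨rfl, -⟩ := hw
      simp [mul, D.py_init] at hm
  · simp only [List.cons_append, List.cons.injEq] at hw
    exact D.irred_ys s _ (step_pairSys_iff.2 ⟨u, v, a, b, c, hm, hw.2, rfl⟩)

/-- The two test words are `p`-conjugate if and only if the two automata accept a common pair
of tapes. -/
theorem pconj_iff (s : List Y) :
    PConj (cls D.sys [.P D.pf, .G D.gi]) (cls D.sys (.P D.pi :: (s.map .y ++ [.G D.gf]))) ↔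
      ∃ t z, D.RunP D.pi t (s ++ z.reverse) ∧ D.RunG D.gi t.reverse z := by
  constructor
  · rintro ⟨u, v, hu, hv⟩
    obtain ⟨u, rfl⟩ := cls_surj u
    obtain ⟨v, rfl⟩ := cls_surj v
    rw [← cls_append] at hu hv
    have h₁ := steps_of_cls_eq D.sys_confluent D.irred_P hu.symm
    have h₂ := steps_of_cls_eq D.sys_confluent (D.irred_G s) hv.symm
    obtain ⟨t, k, z, hw₁, r₁⟩ := D.steps_to_P h₁
    obtain ⟨t', l, z', hw₂, r₂⟩ := D.steps_to_G s h₂
    rcases v with _ | ⟨p, v⟩
    · simp only [List.append_nil, List.nil_append] at hw₁ hw₂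
      rw [hw₁] at hw₂
      have h := locate (c := Letter.P k) (p := Letter.P D.pi)
        (A := ([] : List (Letter X Y KP KG)))
        (B := s.map Letter.y ++ z'.reverse.map Letter.y ++ Letter.G l :: t'.map Letter.x)
        (by simpa using hw₂) (by simp) (by simp)
      obtain ⟨h₁', h₂', h₃'⟩ := h
      simp only [List.map_eq_nil_iff, List.reverse_eq_nil_iff] at h₁'
      subst h₁'
      cases h₂'
      have h := locate (c := Letter.G D.gi) (p := Letter.G l) (v := []) h₃' (by simp) (by simp)
      obtain ⟨h₁'', h₂'', h₃''⟩ := h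
      cases h₂''
      have e : t' = [] := by simpa using h₃''.symm
      subst e
      rw [← List.map_append] at h₁''
      have e : z = s ++ z'.reverse := by
        refine List.map_injective_iff.2 ?_ h₁''
        intro a b h
        cases h
        rfl
      subst e
      exact ⟨[], z', r₁, by simpa using r₂⟩
    · simp only [List.cons_append, List.cons.injEq] at hw₂
      obtain ⟨rfl, hw₂⟩ := hw₂
      obtain ⟨rfl, h', rfl⟩ := locate hw₁ (by simp) (by simp)
      cases h'
      have h := locate (c := Letter.G D.gi) (p := Letter.G l) (u := z.map Letter.y)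
        (v := t.reverse.map Letter.x) (A := s.map Letter.y ++ z'.reverse.map Letter.y)
        (B := t'.map Letter.x) (by simpa using hw₂) (by simp) (by simp)
      obtain ⟨h₁', h₂', h₃'⟩ := h
      cases h₂'
      have hinj : Function.Injective (Letter.y : Y → Letter X Y KP KG) := by
        intro a b h
        cases h
        rfl
      have hinj' : Function.Injective (Letter.x : X → Letter X Y KP KG) := by
        intro a b h
        cases h
        rfl
      rw [← List.map_append] at h₁'
      have e₁ : z = s ++ z'.reverse := List.map_injective_iff.2 hinj h₁'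
      have e₂ : t.reverse = t' := List.map_injective_iff.2 hinj' h₃'
      subst e₁
      subst e₂
      exact ⟨t, z', r₁, r₂⟩
  · rintro ⟨t, z, r₁, r₂⟩
    refine ⟨cls D.sys (t.reverse.map .x), cls D.sys (.P D.pi :: ((s ++ z.reverse).map .y ++
      [.G D.gi])), ?_, ?_⟩
    · rw [← cls_append]
      exact (D.runP_steps r₁ [.G D.gi]).cls_eq.symm
    · rw [← cls_append]
      have := (D.runG_steps r₂ (.P D.pi :: s.map .y)).cls_eq.symm
      simpa using this

end Device

end Pool.Agent.ConjMonadic
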