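import Pool.Agent.ConjMonadic.Basic

/-!
Rewriting systems all of whose rules have the form `ab → c` with letters `a, b, c`.
-/

namespace Pool.Agent.ConjMonadic

open Relation

variable {L : Type*}

/-- The rewriting system with rules `ab → c` for all letters with `m a b = some c`. -/
def pairSys (m : L → L → Option L) : Set (List L × List L) :=
  {p | ∃ a b c, m a b = some c ∧ p = ([a, b], [c])}

theorem pairSys_monadic (m : L → L → Option L) : Monadic (pairSys m) := by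
  rintro p ⟨a, b, c, _, rfl⟩
  simp

theorem pairSys_finite [Finite L] (m : L → L → Option L) : (pairSys m).Finite := by
  have : pairSys m ⊆ Set.range (fun q : L × L × L => (([q.1, q.2.1], [q.2.2]) :
      List L × List L)) := by
    rintro p ⟨a, b, c, _, rfl⟩
    exact ⟨(a, b, c), rfl⟩
  exact (Set.finite_range _).subset this

theorem step_pairSys_iff {m : L → L → Option L} {w w' : List L} :
    Step (pairSys m) w w' ↔
      ∃ u v a b c, m a b = some c ∧ w = u ++ a :: b :: v ∧ w' = u ++ c :: v := by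
  constructor
  · rintro ⟨u, v, x, y, ⟨a, b, c, h, hxy⟩, rfl, rfl⟩
    simp only [Prod.mk.injEq] at hxy
    obtain ⟨rfl, rfl⟩ := hxy
    exact ⟨u, v, a, b, c, h, by simp, by simp⟩
  · rintro ⟨u, v, a, b, c, h, rfl, rfl⟩
    exact ⟨u, v, [a, b], [c], ⟨a, b, c, h, rfl⟩, by simp, by simp⟩

theorem step_pair {m : L → L → Option L} {a b c : L} (h : m a b = some c) (u v : List L) :
    Step (pairSys m) (u ++ a :: b :: v) (u ++ c :: v) :=
  step_pairSys_iff.2 ⟨u, v, a, b, c, h, rfl, rfl⟩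

/-- The critical pair condition for systems with rules `ab → c`. -/
def PairAssoc (m : L → L → Option L) : Prop :=
  ∀ a b c d e, m a b = some d → m b c = some e → ∃ f, m d c = some f ∧ m a e = some f

theorem pair_diamond {m : L → L → Option L} (hm : PairAssoc m) {w w₁ w₂ : List L}
    (h₁ : Step (pairSys m) w w₁) (h₂ : Step (pairSys m) w w₂) :
    w₁ = w₂ ∨ ∃ w₃, Step (pairSys m) w₁ w₃ ∧ Step (pairSys m) w₂ w₃ := by
  rw [step_pairSys_iff] at h₁ h₂
  obtain ⟨u₁, v₁, a₁, b₁, c₁, e₁, rfl, rfl⟩ := h₁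
  obtain ⟨u₂, v₂, a₂, b₂, c₂, e₂, hw, rfl⟩ := h₂
  -- symmetric main case: `u₂ = u₁ ++ t`
  have main : ∀ (u v₁ t v₂ : List L) (a₁ b₁ c₁ a₂ b₂ c₂ : L), m a₁ b₁ = some c₁ →
      m a₂ b₂ = some c₂ → a₁ :: b₁ :: v₁ = t ++ a₂ :: b₂ :: v₂ →
      u ++ c₁ :: v₁ = (u ++ t) ++ c₂ :: v₂ ∨ ∃ w₃, Step (pairSys m) (u ++ c₁ :: v₁) w₃ ∧
        Step (pairSys m) ((u ++ t) ++ c₂ :: v₂) w₃ := by
    intro u v₁ t v₂ a₁ b₁ c₁ a₂ b₂ c₂ e₁ e₂ h
    rcases t with _ | ⟨x, _ | ⟨y, t⟩⟩
    · simp only [List.nil_append, List.cons.injEq] at h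
      obtain ⟨rfl, rfl, rfl⟩ := h
      rw [e₁] at e₂
      simp only [Option.some.injEq] at e₂
      left
      simp [e₂]
    · simp only [List.cons_append, List.nil_append, List.cons.injEq] at h
      obtain ⟨rfl, rfl, rfl⟩ := h
      obtain ⟨f, hf₁, hf₂⟩ := hm _ _ _ _ _ e₁ e₂
      right
      refine ⟨u ++ f :: v₂, step_pair hf₁ u v₂, ?_⟩
      simpa using step_pair hf₂ u v₂
    · simp only [List.cons_append, List.cons.injEq] at h
      obtain ⟨rfl, rfl, rfl⟩ := h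
      right
      refine ⟨u ++ c₁ :: (t ++ c₂ :: v₂), ?_, ?_⟩
      · simpa using step_pair e₂ (u ++ c₁ :: t) v₂
      · simpa using step_pair e₁ u (t ++ c₂ :: v₂)
  rcases List.append_eq_append_iff.1 hw with ⟨t, ht, h⟩ | ⟨t, ht, h⟩
  · subst ht
    exact main u₁ v₁ t v₂ a₁ b₁ c₁ a₂ b₂ c₂ e₁ e₂ h
  · subst ht
    rcases main u₂ v₂ t v₁ a₂ b₂ c₂ a₁ b₁ c₁ e₂ e₁ h with h | ⟨w₃, h, h'⟩
    · exact Or.inl h.symm
    · exact Or.inr ⟨w₃, h', h⟩

theorem pair_confluent {m : L → L → Option L} (hm : PairAssoc m) : Confluent (pairSys m) := by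
  intro u v w huv huw
  refine church_rosser ?_ huv huw
  intro a b c hab hac
  rcases pair_diamond hm hab hac with rfl | ⟨d, h₁, h₂⟩
  · exact ⟨b, ReflGen.refl, ReflTransGen.refl⟩
  · exact ⟨d, ReflGen.single h₁, ReflTransGen.single h₂⟩

end Pool.Agent.ConjMonadic
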