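import Pool.Agent.ConjMonadic.TokDevice

/-!
Token pairs simulating a one-tape Turing machine.
-/

namespace Pool.Agent.ConjMonadic

open Turing

/-- Letters of configuration words. -/
inductive YL (Γ Q : Type*) where
  | L : YL Γ Q
  | R : YL Γ Q
  | c (a : Γ) : YL Γ Q
  | s (q : Q) (a : Γ) : YL Γ Q
  deriving DecidableEq

section
variable {Γ Q : Type*} [Inhabited Γ] (δ : Q → Γ → Option (Q × TM0.Stmt Γ))

/-- Token pairs: copy a letter, or perform one step of the machine at the head. -/
inductive TokRel : List (YL Γ Q) → List (YL Γ Q) → Prop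
  | cL : TokRel [.L] [.L]
  | cR : TokRel [.R] [.R]
  | cc (a : Γ) : TokRel [.c a] [.c a]
  | write {q a q' b} : δ q a = some (q', .write b) → TokRel [.s q a] [.s q' b]
  | right {q a q'} (r : Γ) : δ q a = some (q', .move .right) →
      TokRel [.s q a, .c r] [.c a, .s q' r]
  | rightE {q a q'} : δ q a = some (q', .move .right) →
      TokRel [.s q a, .R] [.c a, .s q' default, .R]
  | left {q a q'} (l : Γ) : δ q a = some (q', .move .left) →
      TokRel [.c l, .s q a] [.s q' l, .c a]
  | leftE {q a q'} : δ q a = some (q', .move .left) →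
      TokRel [.L, .s q a] [.L, .s q' default, .c a]

/-- Two words that are the two projections of a sequence of tokens. -/
inductive Sim : List (YL Γ Q) → List (YL Γ Q) → Prop
  | nil : Sim [] []
  | cons {a b u v} : TokRel δ a b → Sim u v → Sim (a ++ u) (b ++ v)

/-- A configuration: left part (read away from the head), state, head symbol, right part. -/
structure LCfg (Γ Q : Type*) where
  l : List Γ
  q : Q
  a : Γ
  r : List Γ

/-- The word of a configuration. -/
def LCfg.word (c : LCfg Γ Q) : List (YL Γ Q) :=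
  .L :: (c.l.reverse.map .c ++ .s c.q c.a :: (c.r.map .c ++ [.R]))

/-- Result of an action. -/
def LCfg.apply (c : LCfg Γ Q) : Q × TM0.Stmt Γ → LCfg Γ Q
  | (q', .write b) => ⟨c.l, q', b, c.r⟩
  | (q', .move .right) => ⟨c.a :: c.l, q', c.r.headI, c.r.tail⟩
  | (q', .move .left) => ⟨c.l.tail, q', c.l.headI, c.a :: c.r⟩

/-- The machine halts from the configuration. -/
inductive Halts : LCfg Γ Q → Prop
  | halt {c} : δ c.q c.a = none → Halts c
  | step {c p} : δ c.q c.a = some p → Halts (c.apply p) → Halts c

variable {δ}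

theorem Sim.append {u v u' v' : List (YL Γ Q)} (h : Sim δ u v) (h' : Sim δ u' v') :
    Sim δ (u ++ u') (v ++ v') := by
  induction h with
  | nil => exact h'
  | cons ht _ ih => simpa using Sim.cons ht ih

theorem sim_single {a b : List (YL Γ Q)} (h : TokRel δ a b) : Sim δ a b := by
  simpa using Sim.cons h Sim.nil

theorem sim_cells (k : List Γ) : Sim δ (k.map .c) (k.map .c) := by
  induction k with
  | nil => exact Sim.nil
  | cons x k ih => simpa using Sim.cons (TokRel.cc x) ih

theorem sim_nil_inv {v : List (YL Γ Q)} (h : Sim δ [] v) : v = [] := by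
  generalize hw : ([] : List (YL Γ Q)) = w' at h
  cases h with
  | nil => rfl
  | @cons a b u v ht hs =>
    rcases a with _ | ⟨y, a⟩
    · cases ht
    · simp at hw

theorem sim_cons_inv {x : YL Γ Q} {w v : List (YL Γ Q)} (h : Sim δ (x :: w) v) :
    ∃ a b u v', TokRel δ (x :: a) b ∧ w = a ++ u ∧ v = b ++ v' ∧ Sim δ u v' := by
  generalize hw : x :: w = w' at h
  cases h with
  | nil => cases hw
  | @cons a b u v ht hs =>
    rcases a with _ | ⟨y, a⟩
    · cases ht
    · simp only [List.cons_append, List.cons.injEq] at hw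
      obtain ⟨rfl, rfl⟩ := hw
      exact ⟨a, b, u, v, ht, rfl, rfl, hs⟩

theorem sim_step {c : LCfg Γ Q} {p : Q × TM0.Stmt Γ} (h : δ c.q c.a = some p) :
    Sim δ c.word (c.apply p).word := by
  obtain ⟨l, q, a, r⟩ := c
  obtain ⟨q', st⟩ := p
  simp only at h
  have hR : Sim δ (r.map .c ++ [.R]) (r.map .c ++ [.R]) := (sim_cells r).append
    (sim_single TokRel.cR)
  rcases st with (_ | _) | b
  · -- move left
    rcases l with _ | ⟨x, l⟩
    · have := (sim_single (TokRel.leftE h)).append hR
      simpa [LCfg.word, LCfg.apply] using this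
    · have := ((sim_single (δ := δ) TokRel.cL).append (sim_cells l.reverse)).append
        ((sim_single (TokRel.left x h)).append hR)
      simpa [LCfg.word, LCfg.apply] using this
  · -- move right
    rcases r with _ | ⟨x, r⟩
    · have := ((sim_single (δ := δ) TokRel.cL).append (sim_cells l.reverse)).append
        (sim_single (TokRel.rightE h))
      simpa [LCfg.word, LCfg.apply] using this
    · have hR' : Sim δ (r.map .c ++ [.R]) (r.map .c ++ [.R]) := (sim_cells r).append
        (sim_single TokRel.cR)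
      have := ((sim_single (δ := δ) TokRel.cL).append (sim_cells l.reverse)).append
        ((sim_single (TokRel.right x h)).append hR')
      simpa [LCfg.word, LCfg.apply] using this
  · have := ((sim_single (δ := δ) TokRel.cL).append (sim_cells l.reverse)).append
      ((sim_single (TokRel.write h)).append hR)
    simpa [LCfg.word, LCfg.apply] using this

theorem sim_cells_R {k : List Γ} {v : List (YL Γ Q)} (h : Sim δ (k.map .c ++ [.R]) v) :
    v = k.map .c ++ [.R] := by
  induction k generalizing v with
  | nil =>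
    obtain ⟨a, b, u, v', ht, h₁, rfl, hs⟩ := sim_cons_inv h
    obtain ⟨rfl, rfl⟩ : a = [] ∧ u = [] := by simpa using h₁
    obtain rfl := sim_nil_inv hs
    cases ht
    rfl
  | cons x k ih =>
    obtain ⟨a, b, u, v', ht, h₁, rfl, hs⟩ := sim_cons_inv h
    cases ht with
    | cc =>
      rw [List.nil_append] at h₁
      subst h₁
      simp [ih hs]
    | left l hl =>
      exfalso
      rcases k with _ | ⟨y, k⟩ <;> simp at h₁

theorem sim_head {q : Q} {a : Γ} {r : List Γ} {v : List (YL Γ Q)}
    (h : Sim δ (.s q a :: (r.map .c ++ [.R])) v) :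
    (∃ q' b, δ q a = some (q', .write b) ∧ v = .s q' b :: (r.map .c ++ [.R])) ∨
    (∃ q', δ q a = some (q', .move .right) ∧
      v = .c a :: .s q' r.headI :: (r.tail.map .c ++ [.R])) := by
  obtain ⟨x, b, u, v', ht, h₁, rfl, hs⟩ := sim_cons_inv h
  cases ht with
  | write hd =>
    rw [List.nil_append] at h₁
    subst h₁
    left
    exact ⟨_, _, hd, by simp [sim_cells_R hs]⟩
  | right x hd =>
    right
    rcases r with _ | ⟨y, r⟩
    · simp at h₁
    · simp only [List.map_cons, List.cons_append, List.nil_append, List.cons.injEq,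
        YL.c.injEq] at h₁
      obtain ⟨rfl, rfl⟩ := h₁
      exact ⟨_, hd, by simp [sim_cells_R hs]⟩
  | rightE hd =>
    right
    rcases r with _ | ⟨y, r⟩
    · obtain rfl : u = [] := by simpa using h₁.symm
      obtain rfl := sim_nil_inv hs
      exact ⟨_, hd, by simp⟩
    · simp at h₁

theorem sim_pre {k : List Γ} {q : Q} {a : Γ} {w v : List (YL Γ Q)}
    (h : Sim δ (k.map .c ++ .s q a :: w) v) :
    (∃ v', v = k.map .c ++ v' ∧ Sim δ (.s q a :: w) v') ∨
    (∃ k' x q' v', k = k' ++ [x] ∧ δ q a = some (q', .move .left) ∧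
      v = k'.map .c ++ .s q' x :: .c a :: v' ∧ Sim δ w v') := by
  induction k generalizing v with
  | nil => exact Or.inl ⟨v, rfl, h⟩
  | cons x k ih =>
    obtain ⟨y, b, u, v', ht, h₁, rfl, hs⟩ := sim_cons_inv h
    cases ht with
    | cc =>
      rw [List.nil_append] at h₁
      subst h₁
      rcases ih hs with ⟨v'', rfl, h'⟩ | ⟨k', x', q', v'', rfl, hd, rfl, h'⟩
      · exact Or.inl ⟨v'', by simp, h'⟩
      · exact Or.inr ⟨x :: k', x', q', v'', by simp, hd, by simp, h'⟩
    | left l hd =>
      rcases k with _ | ⟨y, k⟩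
      · simp only [List.map_nil, List.nil_append, List.cons_append, List.cons.injEq,
          YL.s.injEq] at h₁
        obtain ⟨⟨rfl, rfl⟩, rfl⟩ := h₁
        exact Or.inr ⟨[], x, _, v', rfl, hd, by simp, hs⟩
      · simp at h₁

theorem sim_det {c : LCfg Γ Q} {v : List (YL Γ Q)} (h : Sim δ c.word v) :
    ∃ p, δ c.q c.a = some p ∧ v = (c.apply p).word := by
  obtain ⟨l, q, a, r⟩ := c
  obtain ⟨x, b, u, v', ht, h₁, rfl, hs⟩ := sim_cons_inv h
  simp only at h₁ ⊢
  cases ht with
  | cL =>
    rw [List.nil_append] at h₁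
    subst h₁
    rcases sim_pre hs with ⟨v'', rfl, h'⟩ | ⟨k', x', q', v'', hk, hd, rfl, h'⟩
    · rcases sim_head h' with ⟨q', b, hd, rfl⟩ | ⟨q', hd, rfl⟩
      · exact ⟨_, hd, by simp [LCfg.word, LCfg.apply]⟩
      · exact ⟨_, hd, by simp [LCfg.word, LCfg.apply]⟩
    · have hl : l = x' :: k'.reverse := by
        have := congrArg List.reverse hk
        simpa using this
      subst hl
      rw [sim_cells_R h']
      exact ⟨_, hd, by simp [LCfg.word, LCfg.apply]⟩
  | leftE hd =>
    rcases l with _ | ⟨y, l⟩
    · simp only [List.reverse_nil, List.map_nil, List.nil_append, List.cons_append,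
        List.cons.injEq, YL.s.injEq] at h₁
      obtain ⟨⟨rfl, rfl⟩, rfl⟩ := h₁
      rw [sim_cells_R hs]
      exact ⟨_, hd, by simp [LCfg.word, LCfg.apply]⟩
    · exfalso
      have : ∃ y' k, (y :: l).reverse = y' :: k := by
        rcases hh : (y :: l).reverse with _ | ⟨y', k⟩
        · simp at hh
        · exact ⟨y', k, rfl⟩
      obtain ⟨y', k, hk⟩ := this
      rw [hk] at h₁
      simp at h₁

theorem split_aux {u v : List (YL Γ Q)} (h : Sim δ u v) {F' w rest : List (YL Γ Q)}
    (hL : .L ∉ w) (hR : .R ∉ w) (he : u ++ .L :: F' = w ++ .R :: rest) :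
    ∃ u' v₁ v', Sim δ (w ++ [.R]) v₁ ∧ Sim δ u' v' ∧ u = w ++ .R :: u' ∧ v = v₁ ++ v' := by
  induction h generalizing w with
  | nil =>
    exfalso
    rcases w with _ | ⟨x, w⟩
    · simp at he
    · simp only [List.nil_append, List.cons_append, List.cons.injEq] at he
      exact hL (by simp [he.1])
  | @cons a b u v ht hs ih =>
    cases ht with
    | cL =>
      exfalso
      rcases w with _ | ⟨x, w⟩
      · simp at he
      · simp only [List.cons_append, List.cons.injEq] at he
        exact hL (by simp [he.1])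
    | cR =>
      rcases w with _ | ⟨x, w⟩
      · exact ⟨u, [.R], v, sim_single TokRel.cR, hs, by simp, by simp⟩
      · exfalso
        simp only [List.cons_append, List.cons.injEq] at he
        exact hR (by simp [he.1])
    | cc g =>
      rcases w with _ | ⟨x, w⟩
      · simp at he
      · simp only [List.cons_append, List.cons.injEq, List.nil_append] at he
        obtain ⟨rfl, he⟩ := he
        obtain ⟨u', v₁, v', h₁, h₂, rfl, rfl⟩ := ih (w := w) (fun h => hL (by simp [h]))
          (fun h => hR (by simp [h])) he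
        exact ⟨u', .c g :: v₁, v', by simpa using Sim.cons (TokRel.cc g) h₁, h₂, by simp,
          by simp⟩
    | write hd =>
      rcases w with _ | ⟨x, w⟩
      · simp at he
      · simp only [List.cons_append, List.cons.injEq, List.nil_append] at he
        obtain ⟨rfl, he⟩ := he
        obtain ⟨u', v₁, v', h₁, h₂, rfl, rfl⟩ := ih (w := w) (fun h => hL (by simp [h]))
          (fun h => hR (by simp [h])) he
        exact ⟨u', _, v', by simpa using Sim.cons (TokRel.write hd) h₁, h₂, by simp, by simp⟩
    | right r hd =>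
      rcases w with _ | ⟨x, _ | ⟨y, w⟩⟩
      · simp at he
      · simp at he
      · simp only [List.cons_append, List.cons.injEq, List.nil_append] at he
        obtain ⟨rfl, rfl, he⟩ := he
        obtain ⟨u', v₁, v', h₁, h₂, rfl, rfl⟩ := ih (w := w) (fun h => hL (by simp [h]))
          (fun h => hR (by simp [h])) he
        exact ⟨u', _, v', by simpa using Sim.cons (TokRel.right r hd) h₁, h₂, by simp,
          by simp⟩
    | rightE hd =>
      rcases w with _ | ⟨x, _ | ⟨y, w⟩⟩
      · simp at he
      · simp only [List.cons_append, List.cons.injEq, List.nil_append] at he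
        obtain ⟨rfl, -, he⟩ := he
        exact ⟨u, _, v, sim_single (TokRel.rightE hd), hs, by simp, rfl⟩
      · exfalso
        simp only [List.cons_append, List.cons.injEq, List.nil_append] at he
        exact hR (by simp [he.2.1])
    | left l hd =>
      rcases w with _ | ⟨x, _ | ⟨y, w⟩⟩
      · simp at he
      · simp at he
      · simp only [List.cons_append, List.cons.injEq, List.nil_append] at he
        obtain ⟨rfl, rfl, he⟩ := he
        obtain ⟨u', v₁, v', h₁, h₂, rfl, rfl⟩ := ih (w := w) (fun h => hL (by simp [h]))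
          (fun h => hR (by simp [h])) he
        exact ⟨u', _, v', by simpa using Sim.cons (TokRel.left l hd) h₁, h₂, by simp,
          by simp⟩
    | leftE hd =>
      exfalso
      rcases w with _ | ⟨x, w⟩
      · simp at he
      · simp only [List.cons_append, List.cons.injEq] at he
        exact hL (by simp [he.1])

theorem split_word {c : LCfg Γ Q} {u v F' rest : List (YL Γ Q)} (h : Sim δ u v)
    (he : u ++ .L :: F' = c.word ++ rest) :
    (u = [] ∧ .L :: F' = c.word ++ rest) ∨
    ∃ u' v₁ v', Sim δ c.word v₁ ∧ Sim δ u' v' ∧ u = c.word ++ u' ∧ v = v₁ ++ v' := by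
  obtain ⟨l, q, a, r⟩ := c
  have hLR : ∀ (l r : List Γ), YL.L ∉ (l.map .c ++ .s q a :: r.map .c : List (YL Γ Q)) ∧
      YL.R ∉ (l.map .c ++ .s q a :: r.map .c : List (YL Γ Q)) := by
    intro l r
    simp
  cases h with
  | nil => exact Or.inl ⟨rfl, he⟩
  | @cons x b u v ht hs =>
    right
    cases ht with
    | cL =>
      simp only [LCfg.word, List.cons_append, List.nil_append, List.cons.injEq, true_and] at he
      obtain ⟨u', v₁, v', h₁, h₂, rfl, rfl⟩ := split_aux hs (hLR l.reverse r).1
        (hLR l.reverse r).2 (rest := rest) (by simpa using he)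
      refine ⟨u', .L :: v₁, v', ?_, h₂, by simp [LCfg.word], by simp⟩
      simpa [LCfg.word] using Sim.cons TokRel.cL h₁
    | leftE hd =>
      simp only [LCfg.word, List.cons_append, List.nil_append, List.cons.injEq, true_and] at he
      rcases hl : l.reverse with _ | ⟨y, k⟩
      · rw [hl] at he
        simp only [List.map_nil, List.nil_append, List.cons_append, List.cons.injEq,
          YL.s.injEq] at he
        obtain ⟨⟨rfl, rfl⟩, he⟩ := he
        obtain ⟨u', v₁, v', h₁, h₂, rfl, rfl⟩ := split_aux hs (w := r.map .c) (by simp)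
          (by simp) (rest := rest) (by simpa using he)
        refine ⟨u', _, v', ?_, h₂, by simp [LCfg.word, hl], (List.append_assoc _ _ _).symm⟩
        simpa [LCfg.word, hl] using Sim.cons (TokRel.leftE hd) h₁
      · rw [hl] at he
        simp at he
    | _ => simp [LCfg.word] at he

/-- Words accepted in the final phase. -/
theorem halts_of_sim {n : ℕ} : ∀ {c : LCfg Γ Q} {u v w w' : List (YL Γ Q)} {a : YL Γ Q},
    u.length ≤ n → Sim δ u v → c.word ++ v = u ++ .L :: (w ++ a :: (w' ++ [.R])) →
    (∃ q b, a = .s q b ∧ δ q b = none) → Halts δ c := by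
  induction n with
  | zero =>
    intro c u v w w' a hu hs he ha
    obtain rfl : u = [] := by simpa using hu
    obtain rfl := sim_nil_inv hs
    obtain ⟨l, q, b, r⟩ := c
    obtain ⟨q', b', rfl, hd⟩ := ha
    have hmem : (YL.s q' b' : YL Γ Q) ∈ (LCfg.word ⟨l, q, b, r⟩ : List (YL Γ Q)) := by
      rw [List.append_nil] at he
      rw [he]
      simp
    have : q' = q ∧ b' = b := by simpa [LCfg.word] using hmem
    obtain ⟨rfl, rfl⟩ := this
    exact Halts.halt hd
  | succ n ih =>
    intro c u v w w' a hu hs he ha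
    rcases split_word hs he.symm with ⟨rfl, -⟩ | ⟨u', v₁, v', h₁, h₂, rfl, rfl⟩
    · exact ih (by simp) hs he ha
    · obtain ⟨p, hp, rfl⟩ := sim_det h₁
      refine Halts.step hp (ih (u := u') (v := v') (w := w) (w' := w') (a := a) ?_ h₂ ?_ ha)
      · have : 0 < c.word.length := by simp [LCfg.word]
        simp only [List.length_append] at hu
        omega
      · simpa using he

theorem sim_of_halts {c : LCfg Γ Q} (h : Halts δ c) :
    ∃ u v, Sim δ u v ∧ ∃ w a w', c.word ++ v = u ++ .L :: (w ++ a :: (w' ++ [.R])) ∧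
      (∃ q b, a = .s q b ∧ δ q b = none) ∧ (∀ x ∈ w, ∃ b, x = .c b) ∧ .R ∉ w' := by
  induction h with
  | @halt c hc =>
    exact ⟨[], [], Sim.nil, c.l.reverse.map .c, .s c.q c.a, c.r.map .c, by simp [LCfg.word],
      ⟨_, _, rfl, hc⟩, by simp, by simp⟩
  | @step c p hp _ ih =>
    obtain ⟨u, v, hs, w, a, w', he, ha, hw, hw'⟩ := ih
    refine ⟨c.word ++ u, (c.apply p).word ++ v, (sim_step hp).append hs, w, a, w', ?_, ha, hw,
      hw'⟩
    rw [he]
    simp

end

section
variable {Γ Q : Type*} [Inhabited Γ] [DecidableEq Γ] [DecidableEq Q]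
  (δ : Q → Γ → Option (Q × TM0.Stmt Γ))

/-- The finite token family of a machine. -/
def tmTok : TokData {p : BW (YL Γ Q) 3 × BW (YL Γ Q) 3 // TokRel δ p.1.1 p.2.1} (YL Γ Q) where
  N := 3
  al t := t.1.1.1
  be t := t.1.2.1
  al_le t := t.1.1.2
  be_le t := t.1.2.2
  bL := .L
  bR := .R
  halt
    | .s q a => (δ q a).isNone
    | _ => false

omit [DecidableEq Γ] [DecidableEq Q] in
theorem exists_tokens_iff (u v : List (YL Γ Q)) :
    (∃ ts : List {p : BW (YL Γ Q) 3 × BW (YL Γ Q) 3 // TokRel δ p.1.1 p.2.1},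
      ts.flatMap (tmTok δ).al = u ∧ ts.flatMap (tmTok δ).be = v) ↔ Sim δ u v := by
  constructor
  · rintro ⟨ts, rfl, rfl⟩
    induction ts with
    | nil => exact Sim.nil
    | cons t ts ih =>
      simp only [List.flatMap_cons]
      exact Sim.cons t.2 ih
  · intro h
    induction h with
    | nil => exact ⟨[], rfl, rfl⟩
    | @cons a b u v ht _ ih =>
      obtain ⟨ts, rfl, rfl⟩ := ih
      have hlen : a.length ≤ 3 ∧ b.length ≤ 3 := by cases ht <;> simp
      exact ⟨⟨(⟨a, hlen.1⟩, ⟨b, hlen.2⟩), ht⟩ :: ts, by simp [tmTok], by simp [tmTok]⟩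

/-- `p`-conjugacy of the test words of a configuration is halting of the machine. -/
theorem tm_pconj_iff (c : LCfg Γ Q) :
    PConj (cls (tmTok δ).dev.sys [.P .fin, .G .init])
      (cls (tmTok δ).dev.sys ((tmTok δ).testWord c.word)) ↔ Halts δ c := by
  rw [TokData.pconj_iff]
  constructor
  · rintro ⟨ts, F, he, w, a, w', rfl, ha, hw, hw'⟩
    have hs := (exists_tokens_iff δ _ _).1 ⟨ts, rfl, rfl⟩
    refine halts_of_sim le_rfl hs he ?_
    rcases a with _ | _ | a | ⟨q, b⟩ <;> simp [tmTok] at ha
    exact ⟨q, b, rfl, ha⟩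
  · intro h
    obtain ⟨u, v, hs, w, a, w', he, ⟨q, b, rfl, hd⟩, hw, hw'⟩ := sim_of_halts h
    obtain ⟨ts, rfl, rfl⟩ := (exists_tokens_iff δ _ _).2 hs
    refine ⟨ts, _, he, w, .s q b, w', rfl, by simp [tmTok, hd], ?_, hw'⟩
    intro x hx
    obtain ⟨b, rfl⟩ := hw x hx
    rfl

end

end Pool.Agent.ConjMonadic
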