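import Pool.Agent.ConjMonadic.DeviceConj

/-!
The device attached to a finite list of token pairs `(al t, be t)`.
-/

namespace Pool.Agent.ConjMonadic

open Relation

/-- Letters on the first tape: tokens and two end markers. -/
inductive TapeX (T : Type*) where
  | start : TapeX T
  | tok (t : T) : TapeX T
  | stop : TapeX T
  deriving DecidableEq

/-- Words of bounded length. -/
abbrev BW (Y : Type*) (N : ℕ) : Type _ := {w : List Y // w.length ≤ N}

/-- States of the first automaton. -/
inductive KP (Y : Type*) (N : ℕ) where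
  | init : KP Y N
  | rd (w : BW Y N) : KP Y N
  | h0 : KP Y N
  | h1 : KP Y N
  | h2 : KP Y N
  | fin : KP Y N
  deriving DecidableEq

/-- States of the second automaton. -/
inductive KG (Y : Type*) (N : ℕ) where
  | init : KG Y N
  | rd (w : BW Y N) : KG Y N
  | fin : KG Y N
  deriving DecidableEq

/-- A finite family of token pairs together with markers. -/
structure TokData (T Y : Type*) where
  N : ℕ
  al : T → List Y
  be : T → List Y
  al_le : ∀ t, (al t).length ≤ N
  be_le : ∀ t, (be t).length ≤ N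
  bL : Y
  bR : Y
  halt : Y → Bool

namespace TokData

variable {T Y : Type*} [DecidableEq Y] (A : TokData T Y)

/-- Removing the first letter of a bounded word. -/
def bwTail {Y : Type*} {N : ℕ} (b : Y) (w : List Y) (h : (b :: w).length ≤ N) : BW Y N :=
  ⟨w, by simp at h; omega⟩

/-- transitions of `P` on the first tape -/
def px : TapeX T → KP Y A.N → Option (KP Y A.N)
  | .start, .init => some (.rd ⟨[], by simp⟩)
  | .tok t, .rd ⟨[], _⟩ => some (.rd ⟨A.al t, A.al_le t⟩)
  | .stop, .rd ⟨[], _⟩ => some .h0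
  | _, _ => none

/-- transitions of `P` on the second tape -/
def py : KP Y A.N → Y → Option (KP Y A.N)
  | .rd ⟨b :: w, h⟩, c => if c = b then some (.rd (bwTail b w h)) else none
  | .h0, c => if c = A.bL then some .h1 else none
  | .h1, c => if A.halt c then some .h2 else some .h1
  | .h2, c => if c = A.bR then some .fin else some .h2
  | _, _ => none

/-- transitions of `G` on the second tape -/
def gy : Y → KG Y A.N → Option (KG Y A.N)
  | c, .rd ⟨b :: w, h⟩ => if c = b then some (.rd (bwTail b w h)) else none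
  | _, _ => none

/-- transitions of `G` on the first tape -/
def gx : KG Y A.N → TapeX T → Option (KG Y A.N)
  | .init, .stop => some (.rd ⟨[], by simp⟩)
  | .rd ⟨[], _⟩, .tok t => some (.rd ⟨(A.be t).reverse, by simpa using A.be_le t⟩)
  | .rd ⟨[], _⟩, .start => some .fin
  | _, _ => none

/-- The device of a token family. -/
def dev : Device (TapeX T) Y (KP Y A.N) (KG Y A.N) where
  px := A.px
  py := A.py
  gy := A.gy
  gx := A.gx
  pi := .init
  pf := .fin
  gi := .init
  gf := .fin
  p_excl := by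
    rintro (_ | t | _) (_ | ⟨_ | ⟨c, w⟩, h⟩ | _ | _ | _ | _) b k₁ k₂ h₁ h₂ <;>
      simp [px, py] at h₁ h₂
  g_excl := by
    rintro (_ | t | _) (_ | ⟨_ | ⟨c, w⟩, h⟩ | _) b k₁ k₂ h₁ h₂ <;> simp [gx, gy] at h₁ h₂
  py_init := by intro b; rfl
  gy_init := by intro b; rfl
  px_fin := by
    rintro (_ | t | _) (_ | ⟨_ | ⟨c, w⟩, h⟩ | _ | _ | _ | _) <;> simp [px]
  px_init := by
    rintro (_ | t | _) (_ | ⟨_ | ⟨c, w⟩, h⟩ | _ | _ | _ | _) <;> simp [px]
  py_init' := by
    rintro (_ | ⟨_ | ⟨c, w⟩, h⟩ | _ | _ | _ | _) b <;> simp only [py] <;> (try split_ifs) <;> simp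
  gx_init := by
    rintro (_ | ⟨_ | ⟨c, w⟩, h⟩ | _) (_ | t | _) <;> simp [gx]
  gy_init' := by
    rintro b (_ | ⟨_ | ⟨c, w⟩, h⟩ | _) <;> simp only [gy] <;> (try split_ifs) <;> simp
  gy_fin := by intro b; rfl

/-- Words accepted in the final phase: `bL w a w' bR` with `a` a halting letter. -/
def HaltWord (F : List Y) : Prop :=
  ∃ w a w', F = A.bL :: (w ++ a :: (w' ++ [A.bR])) ∧ A.halt a = true ∧
    (∀ b ∈ w, A.halt b = false) ∧ A.bR ∉ w'

/-- Specification of the runs of `P`. -/
def SpecP : KP Y A.N → List (TapeX T) → List Y → Prop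
  | .init, t, z => ∃ (ts : List T) (F : List Y), t = .start :: (ts.map .tok ++ [.stop]) ∧
      z = ts.flatMap A.al ++ F ∧
      A.HaltWord F
  | .rd w, t, z => ∃ (ts : List T) (F : List Y), t = ts.map .tok ++ [.stop] ∧ z = w.1 ++ (ts.flatMap A.al ++ F) ∧
      A.HaltWord F
  | .h0, t, z => t = [] ∧ A.HaltWord z
  | .h1, t, z => t = [] ∧ ∃ w a w', z = w ++ a :: (w' ++ [A.bR]) ∧ A.halt a = true ∧
    (∀ b ∈ w, A.halt b = false) ∧ A.bR ∉ w'
  | .h2, t, z => t = [] ∧ ∃ w', z = w' ++ [A.bR] ∧ A.bR ∉ w'
  | .fin, t, z => t = [] ∧ z = []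

theorem specP_of_run {k : KP Y A.N} {t : List (TapeX T)} {z : List Y} (h : A.dev.RunP k t z) :
    A.SpecP k t z := by
  induction h with
  | fin => exact ⟨rfl, rfl⟩
  | @left a k k' t z hk _ ih =>
    replace hk : A.px a k = some k' := hk
    rcases a with _ | a | _ <;> rcases k with _ | ⟨_ | ⟨c, w⟩, hw⟩ | _ | _ | _ | _ <;>
      simp only [px, Option.some.injEq, reduceCtorEq] at hk
    · subst hk
      obtain ⟨ts, F, rfl, rfl, hF⟩ := ih
      exact ⟨ts, F, rfl, by simp, hF⟩
    · subst hk
      obtain ⟨ts, F, rfl, rfl, hF⟩ := ih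
      exact ⟨a :: ts, F, by simp, by simp, hF⟩
    · subst hk
      obtain ⟨rfl, hF⟩ := ih
      exact ⟨[], z, by simp, by simp, hF⟩
  | @right b k k' t z hk _ ih =>
    replace hk : A.py k b = some k' := hk
    rcases k with _ | ⟨_ | ⟨c, w⟩, hw⟩ | _ | _ | _ | _ <;>
      simp only [py, Option.some.injEq, reduceCtorEq, Option.ite_none_right_eq_some] at hk
    · obtain ⟨rfl, rfl⟩ := hk
      obtain ⟨ts, F, rfl, rfl, hF⟩ := ih
      exact ⟨ts, F, rfl, by simp [bwTail], hF⟩
    · obtain ⟨rfl, rfl⟩ := hk
      obtain ⟨rfl, w, a, w', rfl, h1, h2, h3⟩ := ih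
      exact ⟨rfl, w, a, w', rfl, h1, h2, h3⟩
    · split_ifs at hk with hb
      · cases hk
        obtain ⟨rfl, w', rfl, h3⟩ := ih
        exact ⟨rfl, [], b, w', rfl, hb, by simp, h3⟩
      · cases hk
        obtain ⟨rfl, w, a, w', rfl, h1, h2, h3⟩ := ih
        refine ⟨rfl, b :: w, a, w', rfl, h1, ?_, h3⟩
        intro c hc
        rcases List.mem_cons.1 hc with rfl | hc
        · simpa using hb
        · exact h2 c hc
    · split_ifs at hk with hb
      · cases hk
        obtain ⟨rfl, rfl⟩ := ih
        exact ⟨rfl, [], by simp [hb], by simp⟩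
      · cases hk
        obtain ⟨rfl, w', rfl, h3⟩ := ih
        refine ⟨rfl, b :: w', rfl, ?_⟩
        intro hc
        rcases List.mem_cons.1 hc with h | hc
        · exact hb h.symm
        · exact h3 hc

theorem runP_rd {w : BW Y A.N} {t : List (TapeX T)} {z : List Y}
    (h : A.dev.RunP (.rd ⟨[], by simp⟩) t z) : A.dev.RunP (.rd w) t (w.1 ++ z) := by
  obtain ⟨w, hw⟩ := w
  induction w with
  | nil => exact h
  | cons b w ih =>
    refine Device.RunP.right (k' := .rd ⟨w, by simp at hw; omega⟩) ?_ (ih _)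
    simp [dev, py, bwTail]

theorem run_of_specP {t : List (TapeX T)} {z : List Y} (h : A.SpecP .init t z) :
    A.dev.RunP .init t z := by
  obtain ⟨ts, F, rfl, rfl, w, a, w', rfl, h1, h2, h3⟩ := h
  have e2 : A.dev.RunP .h2 ([] : List (TapeX T)) (w' ++ [A.bR]) := by
    clear h2
    induction w' with
    | nil =>
      refine Device.RunP.right (k' := .fin) ?_ Device.RunP.fin
      simp [dev, py]
    | cons b w' ih =>
      refine Device.RunP.right (k' := .h2) ?_ (ih ?_)
      · have : b ≠ A.bR := by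
          rintro rfl
          exact h3 (by simp)
        simp [dev, py, this]
      · intro hh
        exact h3 (by simp [hh])
  have e1 : A.dev.RunP .h1 ([] : List (TapeX T)) (w ++ a :: (w' ++ [A.bR])) := by
    induction w with
    | nil =>
      refine Device.RunP.right (k' := .h2) ?_ e2
      simp [dev, py, h1]
    | cons b w ih =>
      refine Device.RunP.right (k' := .h1) ?_ (ih ?_)
      · simp [dev, py, h2 b (by simp)]
      · intro c hc
        exact h2 c (by simp [hc])
  have e0 : A.dev.RunP .h0 ([] : List (TapeX T)) (A.bL :: (w ++ a :: (w' ++ [A.bR]))) := by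
    refine Device.RunP.right (k' := .h1) ?_ e1
    simp [dev, py]
  have er : A.dev.RunP (.rd ⟨[], by simp⟩) (ts.map .tok ++ [.stop])
      (ts.flatMap A.al ++ A.bL :: (w ++ a :: (w' ++ [A.bR]))) := by
    induction ts with
    | nil =>
      refine Device.RunP.left (k' := .h0) ?_ e0
      simp [dev, px]
    | cons t ts ih =>
      refine Device.RunP.left (k' := .rd ⟨A.al t, A.al_le t⟩) ?_ ?_
      · simp [dev, px]
      · have := A.runP_rd (w := ⟨A.al t, A.al_le t⟩) ih
        simpa using this
  refine Device.RunP.left (k' := .rd ⟨[], by simp⟩) ?_ er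
  simp [dev, px]

/-- Specification of the runs of `G`. -/
def SpecG : KG Y A.N → List (TapeX T) → List Y → Prop
  | .init, t, z => ∃ (ts : List T), t = .stop :: (ts.map .tok ++ [.start]) ∧
      z = ts.flatMap fun t => (A.be t).reverse
  | .rd w, t, z => ∃ (ts : List T), t = ts.map .tok ++ [.start] ∧
      z = w.1 ++ ts.flatMap fun t => (A.be t).reverse
  | .fin, t, z => t = [] ∧ z = []

theorem specG_of_run {k : KG Y A.N} {t : List (TapeX T)} {z : List Y} (h : A.dev.RunG k t z) :
    A.SpecG k t z := by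
  induction h with
  | fin => exact ⟨rfl, rfl⟩
  | @right a k k' t z hk _ ih =>
    replace hk : A.gx k a = some k' := hk
    rcases a with _ | a | _ <;> rcases k with _ | ⟨_ | ⟨c, w⟩, hw⟩ | _ <;>
      simp only [gx, Option.some.injEq, reduceCtorEq] at hk
    · subst hk
      obtain ⟨rfl, rfl⟩ := ih
      exact ⟨[], rfl, by simp⟩
    · subst hk
      obtain ⟨ts, rfl, rfl⟩ := ih
      exact ⟨a :: ts, by simp, by simp⟩
    · subst hk
      obtain ⟨ts, rfl, rfl⟩ := ih
      exact ⟨ts, rfl, by simp⟩
  | @left b k k' t z hk _ ih =>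
    replace hk : A.gy b k = some k' := hk
    rcases k with _ | ⟨_ | ⟨c, w⟩, hw⟩ | _ <;>
      simp only [gy, Option.some.injEq, reduceCtorEq, Option.ite_none_right_eq_some] at hk
    obtain ⟨rfl, rfl⟩ := hk
    obtain ⟨ts, rfl, rfl⟩ := ih
    exact ⟨ts, rfl, by simp [bwTail]⟩

theorem runG_rd {w : BW Y A.N} {t : List (TapeX T)} {z : List Y}
    (h : A.dev.RunG (.rd ⟨[], by simp⟩) t z) : A.dev.RunG (.rd w) t (w.1 ++ z) := by
  obtain ⟨w, hw⟩ := w
  induction w with
  | nil => exact h
  | cons b w ih =>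
    refine Device.RunG.left (l' := .rd ⟨w, by simp at hw; omega⟩) ?_ (ih _)
    simp [dev, gy, bwTail]

theorem run_of_specG {t : List (TapeX T)} {z : List Y} (h : A.SpecG .init t z) :
    A.dev.RunG .init t z := by
  obtain ⟨ts, rfl, rfl⟩ := h
  have er : A.dev.RunG (.rd ⟨[], by simp⟩) (ts.map .tok ++ [.start])
      (ts.flatMap fun t => (A.be t).reverse) := by
    induction ts with
    | nil =>
      refine Device.RunG.right (l' := .fin) ?_ Device.RunG.fin
      simp [dev, gx]
    | cons t ts ih =>
      refine Device.RunG.right (l' := .rd ⟨(A.be t).reverse, by simpa using A.be_le t⟩) ?_ ?_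
      · simp [dev, gx]
      · have := A.runG_rd (w := ⟨(A.be t).reverse, by simpa using A.be_le t⟩) ih
        simpa using this
  refine Device.RunG.right (l' := .rd ⟨[], by simp⟩) ?_ er
  simp [dev, gx]

/-- The test word for the input `s`. -/
def testWord (s : List Y) : List (Letter (TapeX T) Y (KP Y A.N) (KG Y A.N)) :=
  .P .init :: (s.map .y ++ [.G .fin])

/-- `p`-conjugacy of the test words is solvability of the token equation. -/
theorem pconj_iff (s : List Y) :
    PConj (cls A.dev.sys [.P .fin, .G .init]) (cls A.dev.sys (A.testWord s)) ↔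
      ∃ (ts : List T) (F : List Y), s ++ ts.flatMap A.be = ts.flatMap A.al ++ F ∧
        A.HaltWord F := by
  have := A.dev.pconj_iff s
  refine Iff.trans (by exact this) ?_
  constructor
  · rintro ⟨t, z, r₁, r₂⟩
    obtain ⟨ts, F, rfl, h₂, hF⟩ := A.specP_of_run r₁
    obtain ⟨ts', h₃, rfl⟩ := A.specG_of_run r₂
    have e : ts' = ts.reverse := by
      have h₄ : List.map TapeX.tok ts.reverse ++ [TapeX.start] =
          List.map TapeX.tok ts' ++ [TapeX.start] := by
        simpa using h₃
      have h₅ := List.append_cancel_right h₄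
      exact (List.map_injective_iff.2 (fun a b h => by cases h; rfl) h₅).symm
    subst e
    refine ⟨ts, F, ?_, hF⟩
    rw [← h₂]
    congr 1
    simp [List.flatMap_def, List.reverse_flatten, List.map_reverse, Function.comp_def]
  · rintro ⟨ts, F, h, hF⟩
    refine ⟨.start :: (ts.map .tok ++ [.stop]), ts.reverse.flatMap fun t => (A.be t).reverse,
      ?_, ?_⟩
    · refine A.run_of_specP ⟨ts, F, rfl, ?_, hF⟩
      rw [← h]
      congr 1
      simp [List.flatMap_def, List.reverse_flatten, List.map_reverse, Function.comp_def]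
    · refine A.run_of_specG ⟨ts.reverse, ?_, rfl⟩
      simp

end TokData

end Pool.Agent.ConjMonadic
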