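import Pool.Agent.ConjMonadic.Basic

/-!
Transport of a rewriting system along a bijection of alphabets.
-/

namespace Pool.Agent.ConjMonadic

open Relation

variable {α β : Type*}

theorem cls_eq_iff {R : Set (List α × List α)} {u v : List α} :
    cls R u = cls R v ↔ EqvGen (Step R) u v := by
  refine ⟨eqvGen_of_cls_eq, ?_⟩
  intro h
  induction h with
  | rel x y h => exact h.cls_eq
  | refl x => rfl
  | symm x y _ ih => exact ih.symm
  | trans x y z _ _ ih₁ ih₂ => exact ih₁.trans ih₂

theorem pconj_iff_words {R : Set (List α × List α)} {a b : List α} :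
    PConj (cls R a) (cls R b) ↔
      ∃ u v, EqvGen (Step R) a (u ++ v) ∧ EqvGen (Step R) b (v ++ u) := by
  constructor
  · rintro ⟨u, v, hu, hv⟩
    obtain ⟨u, rfl⟩ := cls_surj u
    obtain ⟨v, rfl⟩ := cls_surj v
    exact ⟨u, v, cls_eq_iff.1 hu, cls_eq_iff.1 hv⟩
  · rintro ⟨u, v, hu, hv⟩
    exact ⟨cls R u, cls R v, cls_eq_iff.2 hu, cls_eq_iff.2 hv⟩

/-- The system obtained by renaming letters. -/
def mapSys (e : α ≃ β) (R : Set (List α × List α)) : Set (List β × List β) :=
  (fun p => (p.1.map e, p.2.map e)) '' R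

theorem mapSys_finite (e : α ≃ β) {R : Set (List α × List α)} (h : R.Finite) :
    (mapSys e R).Finite := h.image _

theorem mapSys_monadic (e : α ≃ β) {R : Set (List α × List α)} (h : Monadic R) :
    Monadic (mapSys e R) := by
  rintro p ⟨q, hq, rfl⟩
  simpa using h q hq

theorem mapSys_symm (e : α ≃ β) (R : Set (List α × List α)) :
    mapSys e.symm (mapSys e R) = R := by
  ext p
  constructor
  · rintro ⟨q, ⟨r, hr, rfl⟩, rfl⟩
    simpa using hr
  · intro hp
    exact ⟨(p.1.map e, p.2.map e), ⟨p, hp, rfl⟩, by simp⟩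

theorem step_map (e : α ≃ β) {R : Set (List α × List α)} {w w' : List α} (h : Step R w w') :
    Step (mapSys e R) (w.map e) (w'.map e) := by
  obtain ⟨u, v, x, y, hR, rfl, rfl⟩ := h
  exact ⟨u.map e, v.map e, x.map e, y.map e, ⟨(x, y), hR, rfl⟩, by simp, by simp⟩

theorem steps_map (e : α ≃ β) {R : Set (List α × List α)} {w w' : List α} (h : Steps R w w') :
    Steps (mapSys e R) (w.map e) (w'.map e) := by
  induction h with
  | refl => exact Steps.refl _
  | tail _ h ih => exact ih.trans (Steps.single (step_map e h))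

theorem eqvGen_map (e : α ≃ β) {R : Set (List α × List α)} {w w' : List α}
    (h : EqvGen (Step R) w w') : EqvGen (Step (mapSys e R)) (w.map e) (w'.map e) := by
  induction h with
  | rel x y h => exact EqvGen.rel _ _ (step_map e h)
  | refl x => exact EqvGen.refl _
  | symm x y _ ih => exact EqvGen.symm _ _ ih
  | trans x y z _ _ ih₁ ih₂ => exact EqvGen.trans _ _ _ ih₁ ih₂

theorem map_symm_map (e : α ≃ β) (w : List β) : (w.map e.symm).map e = w := by simp

theorem mapSys_confluent (e : α ≃ β) {R : Set (List α × List α)} (h : Confluent R) :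
    Confluent (mapSys e R) := by
  intro u v w huv huw
  have h₁ := steps_map e.symm huv
  have h₂ := steps_map e.symm huw
  rw [mapSys_symm] at h₁ h₂
  obtain ⟨z, hz₁, hz₂⟩ := h _ _ _ h₁ h₂
  refine ⟨z.map e, ?_, ?_⟩
  · simpa using steps_map e hz₁
  · simpa using steps_map e hz₂

theorem mapSys_pconj (e : α ≃ β) {R : Set (List α × List α)} (a b : List α) :
    PConj (cls (mapSys e R) (a.map e)) (cls (mapSys e R) (b.map e)) ↔
      PConj (cls R a) (cls R b) := by
  rw [pconj_iff_words, pconj_iff_words]
  constructor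
  · rintro ⟨u, v, hu, hv⟩
    refine ⟨u.map e.symm, v.map e.symm, ?_, ?_⟩
    · have := eqvGen_map e.symm hu
      rw [mapSys_symm] at this
      simpa using this
    · have := eqvGen_map e.symm hv
      rw [mapSys_symm] at this
      simpa using this
  · rintro ⟨u, v, hu, hv⟩
    refine ⟨u.map e, v.map e, ?_, ?_⟩
    · simpa using eqvGen_map e hu
    · simpa using eqvGen_map e hv

end Pool.Agent.ConjMonadic
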