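import Pool.Agent.ConjMonadic.TMSim
import Pool.Agent.ConjMonadic.Transport

/-!
A Turing machine with finitely many states and undecidable halting problem, with explicit
input words, from Mathlib's partial recursive functions.
-/

namespace Pool.Agent.ConjMonadic

open Turing StateTransition

section TM0

variable {Γ Λ : Type*} [Inhabited Γ] [Inhabited Λ]

open scoped Classical in
/-- Restriction of a machine to a set of states. -/
noncomputable def restrictM (M : TM0.Machine Γ Λ) (S : Set Λ) :
    S → Γ → Option (S × TM0.Stmt Γ) := fun q a =>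
  (M q a).bind fun p => if h : p.1 ∈ S then some (⟨p.1, h⟩, p.2) else none

/-- The Mathlib configuration of a list configuration. -/
def toCfg {S : Set Λ} (c : LCfg Γ S) : TM0.Cfg Γ Λ :=
  ⟨c.q, ⟨c.a, ListBlank.mk c.l, ListBlank.mk c.r⟩⟩

theorem step_toCfg (M : TM0.Machine Γ Λ) (S : Set Λ)
    (hS : ∀ {q a q' s}, (q', s) ∈ M q a → q ∈ S → q' ∈ S) (c : LCfg Γ S) :
    TM0.step M (toCfg c) = (restrictM M S c.q c.a).map fun p => toCfg (c.apply p) := by
  obtain ⟨l, q, a, r⟩ := c
  simp only [TM0.step, toCfg, restrictM]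
  rcases h : M q a with _ | ⟨q', st⟩
  · simp
  · have hq : q' ∈ S := hS h q.2
    simp only [Option.map_some, Option.bind_some, hq, dite_true]
    congr 1
    rcases st with (_ | _) | b
    · simp [LCfg.apply, Tape.move]
    · simp [LCfg.apply, Tape.move]
    · simp [LCfg.apply, Tape.write]

theorem halts_iff (M : TM0.Machine Γ Λ) (S : Set Λ)
    (hS : ∀ {q a q' s}, (q', s) ∈ M q a → q ∈ S → q' ∈ S) (c : LCfg Γ S) :
    Halts (restrictM M S) c ↔ (eval (TM0.step M) (toCfg c)).Dom := by
  constructor
  · intro h
    induction h with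
    | @halt c hc =>
      rw [Part.dom_iff_mem]
      refine ⟨toCfg c, mem_eval.2 ⟨Relation.ReflTransGen.refl, ?_⟩⟩
      rw [step_toCfg M S hS, hc]
      rfl
    | @step c p hp _ ih =>
      have : eval (TM0.step M) (toCfg c) = eval (TM0.step M) (toCfg (c.apply p)) := by
        refine reaches_eval (Relation.ReflTransGen.single ?_)
        rw [step_toCfg M S hS, hp]
        rfl
      rw [this]
      exact ih
  · intro h
    obtain ⟨b, hb⟩ := Part.dom_iff_mem.1 h
    have key : ∀ x : TM0.Cfg Γ Λ, b ∈ eval (TM0.step M) x → ∀ c : LCfg Γ S, x = toCfg c →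
        Halts (restrictM M S) c := by
      intro x hx
      refine evalInduction (C := fun x => ∀ c : LCfg Γ S, x = toCfg c →
        Halts (restrictM M S) c) hx ?_
      intro x _ ih c hc
      subst hc
      rcases hd : restrictM M S c.q c.a with _ | p
      · exact Halts.halt hd
      · refine Halts.step hd (ih (toCfg (c.apply p)) ?_ _ rfl)
        rw [step_toCfg M S hS, hd]
        rfl
    exact key _ hb c rfl

end TM0

/-- There is a single program on lists of numbers whose halting on `[n]` is undecidable. -/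
theorem exists_universal :
    ∃ c : ToPartrec.Code, ¬ ComputablePred fun n : ℕ => (c.eval [n]).Dom := by
  have hU : Partrec fun n : ℕ => Nat.Partrec.Code.eval
      (Denumerable.ofNat Nat.Partrec.Code n) 0 :=
    Nat.Partrec.Code.eval_part.comp (Computable.ofNat _) (Computable.const 0)
  obtain ⟨c, hc⟩ := ToPartrec.Code.exists_code (Nat.Partrec'.part_iff₁.2 hU)
  refine ⟨c, fun h => ?_⟩
  have hc' : ∀ n : ℕ, (c.eval [n]).Dom ↔
      (Nat.Partrec.Code.eval (Denumerable.ofNat Nat.Partrec.Code n) 0).Dom := by
    intro n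
    have := hc ⟨[n], rfl⟩
    have h2 : c.eval [n] = pure <$> Nat.Partrec.Code.eval
      (Denumerable.ofNat Nat.Partrec.Code n) 0 := this
    rw [h2]
    rfl
  refine ComputablePred.halting_problem 0 ?_
  obtain ⟨hd, hcomp⟩ := h
  refine ComputablePred.of_eq (p := fun a : Nat.Partrec.Code =>
    (c.eval [Encodable.encode a]).Dom) ⟨fun a => hd _, hcomp.comp Computable.encode⟩ ?_
  intro a
  rw [hc', Denumerable.ofNat_encode]

theorem bits_eq {n : ℕ} (h : n ≠ 0) : n.bits = n.bodd :: n.div2.bits := by
  conv_lhs => rw [← Nat.bit_bodd_div2 n]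
  refine Nat.bits_append_bit _ _ ?_
  intro h0
  by_contra h1
  apply h
  rw [← Nat.bit_bodd_div2 n, h0]
  simp only [Bool.not_eq_true] at h1
  rw [h1]
  rfl

theorem primrec_bits : Primrec Nat.bits := by
  have hg : Primrec₂ fun (_ : Unit) (l : List (List Bool)) =>
      (if l.length = 0 then some [] else
        (l[l.length.div2]?).map (fun t => l.length.bodd :: t) : Option (List Bool)) := by
    have hlen : Primrec fun p : Unit × List (List Bool) => p.2.length :=
      Primrec.list_length.comp Primrec.snd
    refine Primrec.ite (PrimrecRel.comp Primrec.eq hlen (Primrec.const 0)) (Primrec.const _) ?_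
    refine Primrec.option_map (Primrec.list_getElem?.comp Primrec.snd
      (Primrec.nat_div2.comp hlen)) ?_
    exact Primrec.list_cons.comp (Primrec.nat_bodd.comp (hlen.comp Primrec.fst)) Primrec.snd
  have := Primrec.nat_strong_rec (fun (_ : Unit) (n : ℕ) => n.bits) hg ?_
  · exact this.comp (Primrec.const ()) Primrec.id
  · intro _ n
    simp only [List.length_map, List.length_range]
    split_ifs with h
    · subst h
      rfl
    · have hlt : n.div2 < n := by
        rw [Nat.div2_val]
        omega
      rw [List.getElem?_map, List.getElem?_range hlt, bits_eq h]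
      rfl

theorem trNat_eq (n : ℕ) : PartrecToTM2.trNat n =
    n.bits.map fun b => cond b PartrecToTM2.Γ'.bit1 PartrecToTM2.Γ'.bit0 := by
  rw [PartrecToTM2.trNat, ← Num.ofNat'_eq]
  induction n using Nat.strongRec with
  | _ n ih =>
    by_cases h : n = 0
    · subst h
      simp [PartrecToTM2.trNum]
    · have hlt : n.div2 < n := by
        rw [Nat.div2_val]
        omega
      rw [bits_eq h, List.map_cons, ← ih _ hlt]
      conv_lhs => rw [← Nat.bit_bodd_div2 n, Num.ofNat'_bit]
      have hne : n.bodd = true ∨ Num.ofNat' n.div2 ≠ 0 := by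
        by_contra hcon
        push Not at hcon
        obtain ⟨h1, h2⟩ := hcon
        rw [Num.ofNat'_eq] at h2
        have h3 : n.div2 = 0 := by
          have := congrArg (fun x : Num => (x : ℕ)) h2
          simpa using this
        apply h
        rw [← Nat.bit_bodd_div2 n, h3]
        simp only [Bool.not_eq_true] at h1
        rw [h1]
        rfl
      rcases hb : n.bodd with _ | _
      · rcases hm : Num.ofNat' n.div2 with _ | m
        · exfalso
          rcases hne with h | h
          · rw [hb] at h
            cases h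
          · exact h hm
        · rfl
      · rcases hm : Num.ofNat' n.div2 with _ | m
        · rfl
        · rfl

section Univ

open PartrecToTM2 (K' trNormal trList)

/-- There is a one-tape machine with finitely many states and letters whose halting problem on
explicit inputs is undecidable. -/
theorem exists_machine : ∃ (Γ Q : Type) (_ : Inhabited Γ) (_ : Finite Γ) (_ : Finite Q)
    (δ : Q → Γ → Option (Q × TM0.Stmt Γ)) (q₀ : Q) (a₀ : Γ) (g : Bool → Γ),
    ¬ ComputablePred fun n : ℕ => Halts δ ⟨[], q₀, a₀, n.bits.reverse.map g⟩ := by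
  classical
  obtain ⟨c, hc⟩ := exists_universal
  let i2 : Inhabited PartrecToTM2.Λ' := ⟨trNormal c PartrecToTM2.Cont'.halt⟩
  let M1 := TM2to1.tr PartrecToTM2.tr
  let M0 := TM1to0.tr M1
  have hs2 : TM2.Supports PartrecToTM2.tr (PartrecToTM2.codeSupp c PartrecToTM2.Cont'.halt) :=
    PartrecToTM2.tr_supports c PartrecToTM2.Cont'.halt
  have hs1 := TM2to1.tr_supports _ hs2
  have hs0 := TM1to0.tr_supports _ hs1
  let S : Finset (TM1to0.Λ' M1) := TM1to0.trStmts M1
    (TM2to1.trSupp PartrecToTM2.tr (PartrecToTM2.codeSupp c PartrecToTM2.Cont'.halt))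
  let gs : PartrecToTM2.Γ' → TM2to1.Γ' K' (fun _ => PartrecToTM2.Γ') := fun a =>
    (false, Function.update (fun _ => none) K'.main (some a))
  refine ⟨TM2to1.Γ' K' (fun _ => PartrecToTM2.Γ'), ((S : Set (TM1to0.Λ' M1)) : Type),
    inferInstance, ?_, ?_, restrictM M0 (S : Set (TM1to0.Λ' M1)), ⟨default, hs0.1⟩,
    (true, (gs PartrecToTM2.Γ'.cons).2),
    fun b => gs (cond b PartrecToTM2.Γ'.bit1 PartrecToTM2.Γ'.bit0), ?_⟩
  · have : Finite K' := by
      refine Finite.of_surjective (fun i : Fin 4 => match i with
        | 0 => K'.main | 1 => K'.rev | 2 => K'.aux | 3 => K'.stack) ?_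
      rintro (_ | _ | _ | _)
      · exact ⟨0, rfl⟩
      · exact ⟨1, rfl⟩
      · exact ⟨2, rfl⟩
      · exact ⟨3, rfl⟩
    exact inferInstanceAs (Finite (Bool × (K' → Option PartrecToTM2.Γ')))
  · exact Finset.finite_toSet S
  · intro hcomp
    apply hc
    refine ComputablePred.of_eq hcomp ?_
    intro n
    rw [halts_iff M0 _ (fun {q a q' s} h hq => hs0.2 h hq)]
    have e2 : (TM2.init K'.main (trList [n]) : TM2.Cfg (fun _ : K' => PartrecToTM2.Γ')
        PartrecToTM2.Λ' (Option PartrecToTM2.Γ')) = PartrecToTM2.init c [n] := by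
      simp only [TM2.init, PartrecToTM2.init]
      congr 1
      funext k
      cases k <;> rfl
    have e3 : (TM2.eval PartrecToTM2.tr K'.main (trList [n])).Dom ↔
        (StateTransition.eval (TM2.step PartrecToTM2.tr) (PartrecToTM2.init c [n])).Dom := by
      rw [← e2]
      rfl
    have e5 : (StateTransition.eval (TM2.step PartrecToTM2.tr)
        (PartrecToTM2.init c [n])).Dom ↔ (c.eval [n]).Dom := by
      rw [PartrecToTM2.tr_eval]
      rfl
    have e6 : (TM0.eval M0 (TM2to1.trInit K'.main (trList [n]))).Dom ↔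
        (TM1.eval M1 (TM2to1.trInit K'.main (trList [n]))).Dom := by
      rw [TM1to0.tr_eval]
    have e7 : (TM1.eval M1 (TM2to1.trInit K'.main (trList [n]))).Dom ↔
        (TM2.eval PartrecToTM2.tr K'.main (trList [n])).Dom :=
      TM2to1.tr_eval_dom PartrecToTM2.tr K'.main (trList [n])
    have hL : (trList [n]).reverse = PartrecToTM2.Γ'.cons ::
        (n.bits.map fun b => cond b PartrecToTM2.Γ'.bit1 PartrecToTM2.Γ'.bit0).reverse := by
      simp [trList, trNat_eq]
    have hR : (n.bits.reverse.map fun b =>
        gs (cond b PartrecToTM2.Γ'.bit1 PartrecToTM2.Γ'.bit0)) =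
        ((n.bits.map fun b => cond b PartrecToTM2.Γ'.bit1 PartrecToTM2.Γ'.bit0).reverse).map
          gs := by
      simp [Function.comp_def]
    have e8 : TM2to1.trInit (Γ := fun _ : K' => PartrecToTM2.Γ') K'.main (trList [n]) =
        (true, (gs PartrecToTM2.Γ'.cons).2) :: (n.bits.reverse.map fun b =>
          gs (cond b PartrecToTM2.Γ'.bit1 PartrecToTM2.Γ'.bit0)) := by
      refine Eq.trans ?_ (congrArg (List.cons _) hR.symm)
      unfold TM2to1.trInit
      rw [hL]
      rfl
    have e9 : (eval (TM0.step M0) (toCfg (S := (S : Set (TM1to0.Λ' M1)))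
        ⟨[], ⟨default, hs0.1⟩, (true, (gs PartrecToTM2.Γ'.cons).2),
          n.bits.reverse.map fun b =>
            gs (cond b PartrecToTM2.Γ'.bit1 PartrecToTM2.Γ'.bit0)⟩)).Dom ↔
        (TM0.eval M0 (TM2to1.trInit K'.main (trList [n]))).Dom := by
      rw [e8]
      rfl
    exact e9.trans (e6.trans (e7.trans (e3.trans e5)))

end Univ

end Pool.Agent.ConjMonadic
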